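import Pool.Agent.H88.B2.Targets

/-! L2A of `bpd_modules`: sampling and local orthogonality at scale `w`. -/

set_option autoImplicit false

namespace Pool.Agent.H97.B2.L2A

open MeasureTheory Set
open Pool.Agent.H83.G Pool.Agent.H88.B2
open scoped ENNReal NNReal RealInnerProductSpace

theorem wt_pos {m : ℕ} (N : ℕ) (x : Z m) : 0 < wt N x := by unfold wt; positivity

theorem wt_cont {m : ℕ} (N : ℕ) : Continuous (wt N : Z m → ℝ) := by
  unfold wt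
  refine Continuous.inv₀ (by fun_prop) fun z => ?_
  have : (0 : ℝ) < (1 + ‖z‖) ^ N := by positivity
  exact this.ne'

theorem Rg_mono {m : ℕ} {κ κ' c : ℝ} (hκ : κ ≤ κ') (hκ1 : κ ≤ 1) (hc : 0 ≤ c) {ζ : Z m}
    (h : ζ ∈ Rg m κ c) : ζ ∈ Rg m κ' c := by
  obtain ⟨h1, h2, h3, h4⟩ := h
  have h0 : 0 ≤ ζ.1 := by linarith
  refine ⟨by linarith, by linarith, h3.trans ?_, h4.trans ?_⟩
  · exact mul_le_mul_of_nonneg_right (by linarith) h0
  · exact mul_le_mul_of_nonneg_right (by linarith) hc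

theorem Rg_norm {m : ℕ} (R : ℝ) (hR : 1 ≤ R) (ζ : Z m) (h : ζ ∈ Rg m (1 / 2) R⁻¹) :
    ‖ζ‖ ≤ 12 := by
  obtain ⟨q1, q2, q3, q4⟩ := h
  have hζ0 : 0 < ζ.1 := by linarith
  have hRi : R⁻¹ ≤ 1 := inv_le_one_of_one_le₀ hR
  have h1 : ‖ζ.2.1‖ ≤ 27 / 4 := by nlinarith
  have h2 : ‖ζ.2.1‖ ^ 2 / ζ.1 ≤ 81 / 8 := by
    rw [div_le_iff₀ hζ0]
    have h3 : ‖ζ.2.1‖ ^ 2 ≤ ((1 + 1 / 2) * ζ.1) ^ 2 := pow_le_pow_left₀ (norm_nonneg _) q3 2
    nlinarith
  have h3 : 0 ≤ ‖ζ.2.1‖ ^ 2 / ζ.1 := by positivity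
  have h4 := abs_le.mp q4
  rw [Prod.norm_def, Prod.norm_def, max_le_iff, max_le_iff]
  refine ⟨?_, by linarith, ?_⟩
  · rw [Real.norm_eq_abs, abs_of_pos hζ0]; linarith
  · rw [Real.norm_eq_abs, abs_le]; constructor <;> linarith

theorem F_TC {m : ℕ} {ι : Type} (I : Finset ι) (G' : ι → Z m → ℂ)
    (h : ∀ k, TC (G' k)) : TC (fun ζ => ∑ k ∈ I, G' k ζ) := by
  refine ⟨ContDiff.sum fun k _ => (h k).1, ?_⟩
  classical
  induction I using Finset.induction_on with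
  | empty =>
    simp only [Finset.sum_empty]
    exact HasCompactSupport.zero
  | insert a s has ih =>
    simp_rw [Finset.sum_insert has]
    exact (h a).2.add ih

theorem F_TF {m : ℕ} {ι : Type} (I : Finset ι) (G' : ι → Z m → ℂ)
    (h : ∀ k, TC (G' k)) (z : Z m) :
    TF (fun ζ => ∑ k ∈ I, G' k ζ) z = ∑ k ∈ I, TF (G' k) z := by
  unfold TF
  rw [← integral_finsetSum]
  · refine integral_congr_ae (Filter.Eventually.of_forall fun ζ => ?_)
    simp only [Finset.mul_sum]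
  · intro k _
    have h1 : Continuous (fun ζ : Z m => e (ph z ζ) * G' k ζ) := by
      have h2 : Continuous (fun ζ : Z m => e (ph z ζ)) := by
        unfold e ph
        fun_prop
      exact h2.mul (h k).1.continuous
    exact h1.integrable_of_hasCompactSupport
      (HasCompactSupport.mul_left (f := fun ζ : Z m => e (ph z ζ)) (h k).2)

/-- `TF G` is measurable -/
theorem TF_meas {m : ℕ} (G : Z m → ℂ) (h : TC G) : Measurable (TF G) := by
  have h1 : Continuous (Function.uncurry (fun (z ζ : Z m) => e (ph z ζ) * G ζ)) := by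
    have hG : Continuous G := h.1.continuous
    unfold Function.uncurry e ph
    fun_prop
  exact (h1.stronglyMeasurable.integral_prod_right (ν := volume)).measurable

theorem sR_pos (R : ℝ) (hR : 1 ≤ R) : 0 < sR R := by
  unfold sR
  exact inv_pos.mpr (Real.sqrt_pos.mpr (by linarith))

open scoped Classical in
/-- the energy with the weight as a sum over the points -/
theorem energy_sum {m : ℕ} (N : ℕ) (w : ℝ) (Q : Finset (Z m)) (f : Z m → ℝ≥0∞)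
    (hf : Measurable f) :
    ∫⁻ z, f z * ENNReal.ofReal (Om N w Q z) =
      ∑ x ∈ Q, ∫⁻ z, f z * ENNReal.ofReal (wt N (w⁻¹ • z - w⁻¹ • x)) := by
  have hcont : ∀ x : Z m, Continuous (fun z : Z m => wt N (w⁻¹ • z - w⁻¹ • x)) := by
    intro x
    have h3 : Continuous (fun z : Z m => w⁻¹ • z - w⁻¹ • x) := by fun_prop
    exact (wt_cont N).comp h3
  rw [← lintegral_finsetSum]
  · refine lintegral_congr fun z => ?_
    unfold Om
    rw [ENNReal.ofReal_sum_of_nonneg fun _ _ => (wt_pos N _).le, Finset.mul_sum]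
    simp only [smul_sub]
  · intro x _
    exact hf.mul (ENNReal.measurable_ofReal.comp (hcont x).measurable)

theorem pf_L2A (hPKT : T_PKT) (hSPW : T_SPW) (hLO : T_LO) (hPUS : T_PUS) (hOM1 : T_OM1)
    (hLOA : T_LOA) (hLWX : T_LWX) : T_L2A := by
  classical
  intro m N₁ β Ψ ψ δ hm hβ hΨ hδ hδ4 hN
  obtain ⟨Ξ, χ, hΞ⟩ := hLWX m
  obtain ⟨C1, hC1, hPK⟩ := hPKT m β Ψ Ξ ψ χ hβ hΨ hΞ
  obtain ⟨Co, hCo1, hOM⟩ := hOM1 m N₁ hN
  obtain ⟨C4, hSP⟩ := hSPW m N₁ 12 2 1 (by norm_num) zero_le_one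
  obtain ⟨-, -, Cη, hCη0, -, hcnt, -⟩ := hPUS m
  obtain ⟨C5, hLOc⟩ := hLO m N₁ ⌈Cη * (1 + 8) ^ m⌉₊ 4 hN (by norm_num)
  set Cf : ℝ := Co * C4 * C5 with hCf
  have hCf0 : 0 ≤ Cf := by positivity
  refine ⟨max (8 * C1) Cf, le_max_of_le_left (by linarith), ?_⟩
  intro κ R w G P g X Q hκ hκ' hR hCR hTC hsupp hw hwR hP hg hSep hX
  have hR0 : 0 < R := by linarith
  have hRinv : (0 : ℝ) ≤ R⁻¹ := by positivity
  have hC1R : 8 * C1 ≤ R ^ δ := (le_max_left _ _).trans hCR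
  have hsRp := sR_pos R hR
  have hw0 : 0 < w := by linarith
  have hwi : 0 < w⁻¹ := inv_pos.mpr hw0
  have hwi1 : w⁻¹ ≤ 1 := inv_le_one_of_one_le₀ hw
  have hsRw : sR R ≤ w⁻¹ := by
    unfold sR
    exact inv_anti₀ hw0 hwR
  obtain ⟨⟨G', hG'TC, hG'supp, hG'TF, -⟩, -⟩ := hPK κ R R δ G P 0 hκ hκ' hδ hδ4 hR
    (by linarith) hTC hsupp
  have hκ2 : κ + C1 * R ^ (-δ) ≤ 1 / 2 := by
    have h1 : C1 * R ^ (-δ) ≤ 1 / 8 := by
      rw [Real.rpow_neg hR0.le, ← div_eq_mul_inv, div_le_iff₀ (Real.rpow_pos_of_pos hR0 _)]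
      linarith
    linarith
  have hG'2 : ∀ k ζ, G' k ζ ≠ 0 → ζ ∈ Rg m (1 / 2) R⁻¹ := fun k ζ hζ =>
    Rg_mono hκ2 (by linarith) hRinv (hG'supp k ζ hζ).1
  -- the index sets
  set I : Finset (Fin m → ℤ) := P.image Prod.fst with hI
  set gg : (Fin m → ℤ) → (Fin m → ℤ) := fun k => g (ctr (sR R) k) with hgg
  set I' : Finset (Fin m → ℤ) := P.image (fun W => g (ctr (sR R) W.1)) with hI'
  have hI'g : I' = I.image gg := by
    rw [hI', hI, Finset.image_image]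
    rfl
  -- the grouped functions
  set H : (Fin m → ℤ) → Z m → ℂ := fun k' ζ => ∑ k ∈ I.filter (fun k => gg k = k'), G' k ζ
    with hH
  have hHTC : ∀ k', TC (H k') := fun k' => F_TC _ G' hG'TC
  have hHTF : ∀ k' z, TF (H k') z =
      ∑ W ∈ P.filter (fun W => g (ctr (sR R) W.1) = k'), Fp β ψ R δ G W z := by
    intro k' z
    rw [hH]
    rw [F_TF _ G' hG'TC]
    rw [Finset.sum_congr rfl fun k _ => hG'TF k z]
    rw [← Finset.sum_fiberwise_of_maps_to (s := P.filter (fun W => g (ctr (sR R) W.1) = k'))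
      (t := I.filter (fun k => gg k = k')) (g := Prod.fst)]
    · refine Finset.sum_congr rfl fun k hk => ?_
      refine Finset.sum_congr ?_ fun _ _ => rfl
      ext W
      simp only [Finset.mem_filter]
      constructor
      · rintro ⟨h1, h2⟩
        refine ⟨⟨h1, ?_⟩, h2⟩
        rw [h2]
        exact (Finset.mem_filter.mp hk).2
      · rintro ⟨⟨h1, -⟩, h2⟩
        exact ⟨h1, h2⟩
    · intro W hW
      obtain ⟨h1, h2⟩ := Finset.mem_filter.mp hW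
      exact Finset.mem_filter.mpr ⟨Finset.mem_image_of_mem _ h1, h2⟩
  have htot : ∀ z, ∑ k' ∈ I', TF (H k') z = ∑ W ∈ P, Fp β ψ R δ G W z := by
    intro z
    rw [Finset.sum_congr rfl fun k' _ => hHTF k' z]
    exact Finset.sum_fiberwise_of_maps_to
      (fun W hW => Finset.mem_image_of_mem (fun W : Pk m => g (ctr (sR R) W.1)) hW) _
  -- the total function
  set F : Z m → ℂ := fun ζ => ∑ k' ∈ I', H k' ζ with hF
  have hFTC : TC F := F_TC I' H hHTC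
  have hHne : ∀ k' ζ, H k' ζ ≠ 0 → ∃ k ∈ I, gg k = k' ∧ G' k ζ ≠ 0 := by
    intro k' ζ hζ
    obtain ⟨k, hk, hk'⟩ := Finset.exists_ne_zero_of_sum_ne_zero hζ
    exact ⟨k, (Finset.mem_filter.mp hk).1, (Finset.mem_filter.mp hk).2, hk'⟩
  have hFsupp : ∀ ζ, F ζ ≠ 0 → ‖ζ‖ ≤ 12 := by
    intro ζ hζ
    obtain ⟨k', -, hk'⟩ := Finset.exists_ne_zero_of_sum_ne_zero hζ
    obtain ⟨k, -, -, hk⟩ := hHne k' ζ hk'
    exact Rg_norm R hR ζ (hG'2 k ζ hk)
  have hFTF : ∀ z, TF F z = ∑ k' ∈ I', TF (H k') z := F_TF I' H hHTC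
  have hFFp : ∀ z, TF F z = ∑ W ∈ P, Fp β ψ R δ G W z := fun z => by rw [hFTF, htot]
  -- the weight
  obtain ⟨hOc, hO0, -, hOn, hOs, -⟩ := hOM w Q hw0
  set ω : Z m → ℝ≥0∞ := fun z => ENNReal.ofReal (Om N₁ w Q z) with hω
  have hωm : Measurable ω := ENNReal.measurable_ofReal.comp hOc.measurable
  have hωs : ∀ z z', ω z ≤ ENNReal.ofReal (1 * (1 + ‖z - z'‖) ^ N₁) * ω z' := by
    intro z z'
    simp only [hω]
    rw [← ENNReal.ofReal_mul (by positivity)]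
    refine ENNReal.ofReal_le_ofReal ((hOs z z').trans ?_)
    refine mul_le_mul_of_nonneg_right ?_ (hO0 z')
    rw [one_mul]
    refine pow_le_pow_left₀ (by positivity) ?_ _
    rw [norm_smul, Real.norm_eq_abs, abs_of_pos hwi]
    have := mul_le_mul_of_nonneg_right hwi1 (norm_nonneg (z - z'))
    linarith
  have hSPW := hSP F X ω hFTC hFsupp hSep hωm hωs
  have hrt : ∀ x : ℝ≥0∞, x ^ (2 : ℝ) = x ^ 2 := fun x => ENNReal.rpow_two x
  simp only [hrt] at hSPW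
  -- step 1
  have hs1 : ∑ z ∈ X, ‖∑ W ∈ P, Fp β ψ R δ G W z‖ₑ ^ 2 ≤
      ENNReal.ofReal Co * ∑ z ∈ X, ‖TF F z‖ₑ ^ 2 * ω z := by
    rw [Finset.mul_sum]
    refine Finset.sum_le_sum fun z hz => ?_
    rw [← hFFp]
    obtain ⟨x, hx, hxz⟩ := hX z hz
    have h1 : (1 : ℝ≥0∞) ≤ ENNReal.ofReal Co * ω z := by
      simp only [hω]
      rw [← ENNReal.ofReal_mul (by linarith), ← ENNReal.ofReal_one]
      exact ENNReal.ofReal_le_ofReal (hOn x hx z hxz)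
    calc ‖TF F z‖ₑ ^ 2 = ‖TF F z‖ₑ ^ 2 * 1 := (mul_one _).symm
      _ ≤ ‖TF F z‖ₑ ^ 2 * (ENNReal.ofReal Co * ω z) := mul_le_mul' le_rfl h1
      _ = ENNReal.ofReal Co * (‖TF F z‖ₑ ^ 2 * ω z) := by ring
  -- step 2: local orthogonality near every point
  have hLOx : ∀ x : Z m, ∫⁻ z, ‖TF F z‖ₑ ^ 2 * ENNReal.ofReal (wt N₁ (w⁻¹ • z - w⁻¹ • x)) ≤
      C5 * ∑ k' ∈ I', ∫⁻ z, ‖TF (H k') z‖ₑ ^ 2 *
        ENNReal.ofReal (wt N₁ (w⁻¹ • z - w⁻¹ • x)) := by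
    intro x
    have hctr : ∀ k' ∈ I', ‖ctr w⁻¹ k'‖ ≤ 4 := by
      intro k' hk'
      obtain ⟨W, hW, rfl⟩ := Finset.mem_image.mp hk'
      have h1 := hg (ctr (sR R) W.1)
      have h2 := (hP W hW).2
      have h3 := norm_sub_norm_le (ctr w⁻¹ (g (ctr (sR R) W.1))) (ctr (sR R) W.1)
      rw [norm_sub_rev] at h3
      linarith
    have hww : w * w⁻¹ = 1 := mul_inv_cancel₀ hw0.ne'
    have key := hLOc (Fin m → ℤ) I' H (fun k' => ctr w⁻¹ k') w⁻¹ 1 w 0 (w⁻¹ • x) hwi one_pos hw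
      (by rw [mul_assoc, hww]; norm_num)
      (by
        intro k' hk'
        rw [sub_zero, mul_assoc, hww, mul_one]
        exact hctr k' hk')
      (fun k' _ => hHTC k') ?_ ?_
    · simp only [((hLOA m).2.2.2.2.1 _).1] at key
      simp only [hFTF]
      exact key
    · intro k' hk' ζ hζ
      obtain ⟨k, hk, hkk', hGk⟩ := hHne k' ζ hζ
      obtain ⟨q1, q2, q3, q4⟩ := hG'2 k ζ hGk
      refine ⟨by linarith, by linarith, ?_⟩
      have h1 := (hG'supp k ζ hGk).2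
      have h2 := hg (ctr (sR R) k)
      have h3 : ζ.1⁻¹ • ζ.2.1 - ctr w⁻¹ k' = (ζ.1⁻¹ • ζ.2.1 - ctr (sR R) k) +
          (ctr (sR R) k - ctr w⁻¹ (g (ctr (sR R) k))) := by
        rw [← hkk', hgg]
        abel
      rw [h3]
      refine (norm_add_le _ _).trans ?_
      linarith
    · intro y J _ hJ
      have h1 := hcnt w⁻¹ (2 * 4 * w⁻¹) y J hwi (by positivity) (by
        intro k hk
        rw [norm_sub_rev]
        exact hJ k hk)
      have h2 : 2 * 4 * w⁻¹ / w⁻¹ = 8 := by field_simp; norm_num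
      rw [h2] at h1
      exact_mod_cast h1.trans (Nat.le_ceil _)
  -- assembly
  have hFm : Measurable (fun z => ‖TF F z‖ₑ ^ 2) := (TF_meas F hFTC).enorm.pow_const 2
  have hHm : ∀ k', Measurable (fun z => ‖TF (H k') z‖ₑ ^ 2) := fun k' =>
    (TF_meas (H k') (hHTC k')).enorm.pow_const 2
  have hs2 : ∫⁻ z, ‖TF F z‖ₑ ^ 2 * ω z ≤
      C5 * ∑ k' ∈ I', ∫⁻ z, ‖TF (H k') z‖ₑ ^ 2 * ω z := by
    simp only [hω]
    rw [energy_sum N₁ w Q _ hFm]
    refine (Finset.sum_le_sum fun x _ => hLOx x).trans (le_of_eq ?_)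
    rw [← Finset.mul_sum, Finset.sum_comm]
    congr 1
    refine Finset.sum_congr rfl fun k' _ => ?_
    rw [energy_sum N₁ w Q _ (hHm k')]
  have hfin : ENNReal.ofReal Co * (C4 * (C5 * ∑ k' ∈ I', ∫⁻ z, ‖TF (H k') z‖ₑ ^ 2 * ω z)) ≤
      ENNReal.ofReal (max (8 * C1) Cf) * ∑ k' ∈ I', ∫⁻ z, ‖TF (H k') z‖ₑ ^ 2 * ω z := by
    have e1 : ENNReal.ofReal Co * (C4 * (C5 * ∑ k' ∈ I', ∫⁻ z, ‖TF (H k') z‖ₑ ^ 2 * ω z)) =
        ENNReal.ofReal Cf * ∑ k' ∈ I', ∫⁻ z, ‖TF (H k') z‖ₑ ^ 2 * ω z := by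
      have e4 : (C4 : ℝ≥0∞) = ENNReal.ofReal (C4 : ℝ) := by simp
      have e5 : (C5 : ℝ≥0∞) = ENNReal.ofReal (C5 : ℝ) := by simp
      rw [hCf, ENNReal.ofReal_mul (by positivity), ENNReal.ofReal_mul (by linarith), ← e4, ← e5]
      ring
    rw [e1]
    exact mul_le_mul' (ENNReal.ofReal_le_ofReal (le_max_right _ _)) le_rfl
  refine (hs1.trans (mul_le_mul' le_rfl (hSPW.trans (mul_le_mul' le_rfl hs2)))).trans
    (hfin.trans (le_of_eq ?_))
  congr 1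
  refine Finset.sum_congr rfl fun k' _ => ?_
  refine lintegral_congr fun z => ?_
  rw [hHTF]

end Pool.Agent.H97.B2.L2A
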