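import Pool.Agent.H88.B2.Targets

/-! OM1 of `bpd_modules`: sums of bumps. -/

set_option autoImplicit false

namespace Pool.Agent.H97.B2.OM1

open MeasureTheory Set
open Pool.Agent.H83.G Pool.Agent.H88.B2
open scoped ENNReal NNReal RealInnerProductSpace

theorem wt_pos {m : ℕ} (N : ℕ) (x : Z m) : 0 < wt N x := by unfold wt; positivity

/-- the weight varies slowly -/
theorem wt_slow (hWT1 : T_WT1) {m : ℕ} (N : ℕ) (x y : Z m) :
    wt N x ≤ (1 + ‖x - y‖) ^ N * wt N y := by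
  have h1 := (hWT1 m N).2.2.1 x (y - x)
  rw [add_sub_cancel] at h1
  have h2 : wt N (y - x) = ((1 + ‖x - y‖) ^ N)⁻¹ := by unfold wt; rw [norm_sub_rev]
  rw [h2] at h1
  have h3 : (0 : ℝ) < (1 + ‖x - y‖) ^ N := by positivity
  rw [← div_eq_mul_inv, div_le_iff₀ h3] at h1
  linarith

theorem pf_OM1 (hWT1 : T_WT1) (hWT2 : T_WT2) (hWT3 : T_WT3) : T_OM1 := by
  intro m N hN
  obtain ⟨C2, hC2, -⟩ := hWT2 m N hN
  obtain ⟨C3, -, -, -, hC3, -⟩ := hWT3 m N hN
  have hcont : ∀ (w : ℝ) (x : Z m), Continuous (fun z : Z m => wt N (w⁻¹ • (z - x))) := by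
    intro w x
    have h1 : Continuous (wt N : Z m → ℝ) := (hWT1 m N).2.1
    have h3 : Continuous (fun z : Z m => w⁻¹ • (z - x)) := by fun_prop
    exact h1.comp h3
  set C : ℝ := max (max (C2 : ℝ) (C3 : ℝ)) (5 ^ N) with hC
  have hCa : (C2 : ℝ) ≤ C := (le_max_left _ _).trans (le_max_left _ _)
  have hCb : (C3 : ℝ) ≤ C := (le_max_right _ _).trans (le_max_left _ _)
  have hCc : (5 : ℝ) ^ N ≤ C := le_max_right _ _
  have hC1 : 1 ≤ C := (one_le_pow₀ (by norm_num)).trans hCc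
  have hC0 : 0 ≤ C := by linarith
  refine ⟨C, hC1, ?_⟩
  intro w Q hw
  have hw0 : w ≠ 0 := hw.ne'
  have hwi : 0 < w⁻¹ := inv_pos.mpr hw
  refine ⟨?_, ?_, ?_, ?_, ?_, ?_⟩
  · unfold Om
    exact continuous_finsetSum _ fun x _ => hcont w x
  · intro z
    exact Finset.sum_nonneg fun x _ => (wt_pos N _).le
  · intro hsep z
    have hinj : Set.InjOn (fun x : Z m => w⁻¹ • x) (Q : Set (Z m)) := by
      intro a _ b _ h
      exact smul_right_injective (Z m) (inv_ne_zero hw0) h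
    have hS : Sep (Q.image (fun x : Z m => w⁻¹ • x)) := by
      intro a ha b hb hab
      obtain ⟨x, hx, rfl⟩ := Finset.mem_image.mp ha
      obtain ⟨y, hy, rfl⟩ := Finset.mem_image.mp hb
      have hxy : x ≠ y := fun h => hab (by rw [h])
      have h1 := hsep x hx y hy hxy
      rw [← smul_sub, norm_smul, Real.norm_eq_abs, abs_of_pos hwi]
      calc (1 : ℝ) = w⁻¹ * w := (inv_mul_cancel₀ hw0).symm
        _ ≤ w⁻¹ * ‖x - y‖ := mul_le_mul_of_nonneg_left h1 hwi.le
    have h1 := hC3 _ (w⁻¹ • z) hS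
    rw [Finset.sum_image hinj] at h1
    have h2 : ∑ x ∈ Q, ENNReal.ofReal (wt N (w⁻¹ • x - w⁻¹ • z)) =
        ENNReal.ofReal (Om N w Q z) := by
      unfold Om
      rw [ENNReal.ofReal_sum_of_nonneg fun _ _ => (wt_pos N _).le]
      refine Finset.sum_congr rfl fun x _ => ?_
      congr 1
      unfold wt
      rw [← smul_sub, norm_smul, norm_smul, norm_sub_rev]
    rw [h2] at h1
    have h3 : ENNReal.ofReal (Om N w Q z) ≤ ENNReal.ofReal C := by
      refine h1.trans ?_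
      rw [← ENNReal.ofReal_coe_nnreal]
      exact ENNReal.ofReal_le_ofReal hCb
    exact (ENNReal.ofReal_le_ofReal_iff hC0).mp h3
  · intro x hx z hz
    have h1 : wt N (w⁻¹ • (z - x)) ≤ Om N w Q z := by
      unfold Om
      exact Finset.single_le_sum (f := fun x => wt N (w⁻¹ • (z - x)))
        (fun _ _ => (wt_pos N _).le) hx
    have h2 : ((5 : ℝ) ^ N)⁻¹ ≤ wt N (w⁻¹ • (z - x)) := by
      unfold wt
      refine inv_anti₀ (by positivity) (pow_le_pow_left₀ (by positivity) ?_ _)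
      rw [norm_smul, Real.norm_eq_abs, abs_of_pos hwi]
      have : w⁻¹ * ‖z - x‖ ≤ w⁻¹ * (4 * w) := mul_le_mul_of_nonneg_left hz hwi.le
      have e : w⁻¹ * (4 * w) = 4 := by field_simp
      linarith
    calc (1 : ℝ) = 5 ^ N * ((5 : ℝ) ^ N)⁻¹ := (mul_inv_cancel₀ (by positivity)).symm
      _ ≤ C * Om N w Q z := mul_le_mul hCc (h2.trans h1) (by positivity) hC0
  · intro z z'
    unfold Om
    rw [Finset.mul_sum]
    refine Finset.sum_le_sum fun x _ => ?_
    have h1 := wt_slow hWT1 N (w⁻¹ • (z - x)) (w⁻¹ • (z' - x))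
    rw [← smul_sub, sub_sub_sub_cancel_right] at h1
    exact h1
  · have h1 : ∫⁻ z, ENNReal.ofReal (Om N w Q z) =
        ∑ x ∈ Q, ∫⁻ z : Z m, ENNReal.ofReal (wt N (w⁻¹ • (z - x))) := by
      rw [← lintegral_finsetSum]
      · refine lintegral_congr fun z => ?_
        unfold Om
        exact ENNReal.ofReal_sum_of_nonneg fun _ _ => (wt_pos N _).le
      · intro x _
        exact ENNReal.measurable_ofReal.comp (hcont w x).measurable
    have h2 : ∀ x ∈ Q, ∫⁻ z : Z m, ENNReal.ofReal (wt N (w⁻¹ • (z - x))) ≤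
        ENNReal.ofReal (C * w ^ (m + 2)) := by
      intro x _
      have h3 := hC2 w⁻¹ (w⁻¹ • x) hwi
      simp only [← smul_sub, inv_inv] at h3
      refine h3.trans ?_
      rw [ENNReal.ofReal_mul hC0]
      refine mul_le_mul' ?_ le_rfl
      rw [← ENNReal.ofReal_coe_nnreal]
      exact ENNReal.ofReal_le_ofReal hCa
    rw [h1]
    refine (Finset.sum_le_sum h2).trans (le_of_eq ?_)
    rw [Finset.sum_const, nsmul_eq_mul, ← ENNReal.ofReal_natCast,
      ← ENNReal.ofReal_mul (by positivity)]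
    congr 1
    ring

end Pool.Agent.H97.B2.OM1
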